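import Pool.Agent.H809Z.Ball.Defs

open scoped Topology ENNReal InnerProductSpace
open Filter Metric Set MeasureTheory

namespace Pool.Agent.H809Z.Ball

namespace LemEAux

variable {n : ℕ}

noncomputable def pw (x : En n) (r a : ℝ) : En n → ℝ :=
  indicator {w | dd x w < r} (fun w => dd x w ^ (-a))

lemma pw_nonneg (x : En n) (r a : ℝ) (w : En n) : 0 ≤ pw x r a w :=
  indicator_nonneg (fun _ _ => Real.rpow_nonneg (dd_nonneg _ _) _) _

lemma pw_of_lt {x w : En n} {r : ℝ} (a : ℝ) (h : dd x w < r) : pw x r a w = dd x w ^ (-a) :=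
  indicator_of_mem (s := {w | dd x w < r}) h _

lemma near (hI : IntNear n) (a : ℝ) (ha : a < n + 1) : ∃ C : ℝ, 0 ≤ C ∧ ∀ x : En n, ‖x‖ ≤ 1 →
    ∀ r : ℝ, 0 ≤ r → Integrable (pw x r a) (volume.restrict (ball (0 : En n) 1)) ∧
      ∫ w in ball (0 : En n) 1, pw x r a w ≤ C * r ^ ((n : ℝ) + 1 - a) := by
  obtain ⟨C, hC, h⟩ := hI a ha
  refine ⟨C, hC, fun x hx r hr => ?_⟩
  have hb : 0 ≤ C * r ^ ((n : ℝ) + 1 - a) := mul_nonneg hC (Real.rpow_nonneg hr _)
  rcases hr.eq_or_lt with rfl | hr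
  · have : pw x 0 a = fun _ => 0 := by
      funext w
      exact indicator_of_notMem (s := {w | dd x w < 0}) (not_lt.mpr (dd_nonneg x w)) _
    rw [this]
    exact ⟨integrable_zero _ _ _, by simpa using hb⟩
  have hS : MeasurableSet {w : En n | dd x w < r} :=
    (isOpen_lt (continuous_dd x) continuous_const).measurableSet
  have hm : Measurable (pw x r a) :=
    ((continuous_dd x).measurable.pow_const _).indicator hS
  have hl : ∫⁻ w in ball (0 : En n) 1, ENNReal.ofReal (pw x r a w) ≤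
      ENNReal.ofReal (C * r ^ ((n : ℝ) + 1 - a)) := by
    refine le_trans (le_of_eq ?_) (h x hx r hr)
    have e1 : (fun w => ENNReal.ofReal (pw x r a w)) =
        indicator {w | dd x w < r} (fun w => ENNReal.ofReal (dd x w ^ (-a))) := by
      funext w
      by_cases hw : dd x w < r
      · rw [pw_of_lt a hw, indicator_of_mem (s := {w | dd x w < r}) hw]
      · rw [pw, indicator_of_notMem (s := {w | dd x w < r}) hw,
          indicator_of_notMem (s := {w | dd x w < r}) hw, ENNReal.ofReal_zero]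
    rw [e1, lintegral_indicator hS, Measure.restrict_restrict hS]
    congr 2
    ext w
    simp [and_comm]
  constructor
  · refine ⟨hm.aestronglyMeasurable, ?_⟩
    rw [hasFiniteIntegral_iff_ofReal (Eventually.of_forall (pw_nonneg x r a))]
    exact lt_of_le_of_lt hl ENNReal.ofReal_lt_top
  · rw [integral_eq_lintegral_of_nonneg_ae (Eventually.of_forall (pw_nonneg x r a))
      hm.aestronglyMeasurable]
    exact ENNReal.toReal_le_of_le_ofReal hb hl

lemma tail (n M : ℕ) : ∃ K : ℝ, 0 ≤ K ∧ ∀ u : ℂ, ‖u‖ ≤ 1 / 2 →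
    ‖((1 - u) ^ (n + 1))⁻¹ - ∑ i ∈ Finset.range M, ((i + n).choose n : ℂ) * u ^ i‖ ≤ K * ‖u‖ ^ M := by
  have h0 : Summable (fun i : ℕ => (((i + n).choose n : ℕ) : ℝ) * (1 / 2 : ℝ) ^ i) :=
    (hasSum_choose_mul_geometric_of_norm_lt_one n (r := (1 / 2 : ℝ)) (by norm_num)).summable
  have h1 : Summable (fun i : ℕ => (((i + M + n).choose n : ℕ) : ℝ) * (1 / 2 : ℝ) ^ i) := by
    have := ((summable_nat_add_iff M).mpr h0).mul_left (2 ^ M)
    refine this.congr (fun i => ?_)
    rw [pow_add, one_div, inv_pow 2 M]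
    field_simp
  refine ⟨∑' i : ℕ, (((i + M + n).choose n : ℕ) : ℝ) * (1 / 2 : ℝ) ^ i,
    tsum_nonneg (fun i => by positivity), fun u hu => ?_⟩
  have h2 := hasSum_choose_mul_geometric_of_norm_lt_one n (r := u) (by linarith)
  have h3 := (hasSum_nat_add_iff' M).mpr h2
  rw [one_div] at h3
  rw [← h3.tsum_eq]
  refine tsum_of_norm_bounded (h1.hasSum.mul_right (‖u‖ ^ M)) (fun i => ?_)
  rw [norm_mul, norm_pow, pow_add, Complex.norm_natCast, mul_assoc]
  gcongr

lemma scale {m γ : ℝ} (h0 : 0 < γ) (h1 : γ < m + 1) {T : ℝ} (hT : 0 ≤ T) (hT2 : T ≤ 2) :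
    (2 * T) ^ (m + 1) ≤ 2 ^ γ * 4 ^ (m + 1 - γ) * T ^ γ := by
  have e : m + 1 = γ + (m + 1 - γ) := by ring
  have h2 : (2 * T) ^ (m + 1) = (2 * T) ^ γ * (2 * T) ^ (m + 1 - γ) := by
    conv_lhs => rw [e]
    exact Real.rpow_add' (by positivity) (by linarith)
  rw [h2, Real.mul_rpow (by norm_num) hT]
  have h3 : (2 * T) ^ (m + 1 - γ) ≤ 4 ^ (m + 1 - γ) :=
    Real.rpow_le_rpow (by positivity) (by linarith) (by linarith)
  have h4 : 0 ≤ 2 ^ γ * T ^ γ := by positivity
  nlinarith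

lemma pow_inv_eq {d : ℝ} (hd : 0 < d) (k : ℕ) : (d ^ k)⁻¹ = d ^ (-(k : ℝ)) := by
  rw [Real.rpow_neg hd.le, Real.rpow_natCast]

end LemEAux

open LemEAux in
theorem lemE {n : ℕ} (hI : IntNear n) : LemE n := by
  intro M m γ hm hM hγ0 hγM hγm
  obtain ⟨K, hK, htail⟩ := tail n M
  obtain ⟨C0, hC0, h0⟩ := near hI (n + γ - m) (by linarith)
  obtain ⟨C1, hC1, h1⟩ := near hI n (by linarith)
  have hi : ∀ i : ℕ, ∃ C : ℝ, 0 ≤ C ∧ (i < M → ∀ x : En n, ‖x‖ ≤ 1 →
      ∀ r : ℝ, 0 ≤ r → Integrable (pw x r (n + i - m)) (volume.restrict (ball (0 : En n) 1)) ∧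
      ∫ w in ball (0 : En n) 1, pw x r (n + i - m) w ≤ C * r ^ ((n : ℝ) + 1 - (n + i - m))) := by
    intro i
    by_cases h : i < M
    · have : (i : ℝ) + 1 ≤ M := by exact_mod_cast h
      obtain ⟨C, hC, h'⟩ := near hI (n + i - m) (by linarith)
      exact ⟨C, hC, fun _ => h'⟩
    · exact ⟨0, le_rfl, fun h' => absurd h' h⟩
  choose Ci hCi hi using hi
  set B : ℝ := 2 ^ γ * 4 ^ (m + 1 - γ) with hB
  have hB0 : 0 ≤ B := by positivity
  refine ⟨K * (C0 * 3 ^ ((n : ℝ) + 1 - (n + γ - m))) + 3 / 2 * C1 * B +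
    (∑ i ∈ Finset.range M, ((i + n).choose n : ℝ) * Ci i) * B, ?_, ?_⟩
  · have : 0 ≤ ∑ i ∈ Finset.range M, ((i + n).choose n : ℝ) * Ci i :=
      Finset.sum_nonneg (fun i _ => mul_nonneg (Nat.cast_nonneg _) (hCi i))
    positivity
  intro μ C x v hC hμ hx hv hb
  let f : ℕ → En n → ℂ := fun i y => μ y * (⟪y, v⟫_ℂ ^ i * ((1 - ⟪y, x⟫_ℂ) ^ (n + 1 + i))⁻¹)
  have hbv : ∀ y ∈ ball (0 : En n) 1, ‖⟪y, v⟫_ℂ‖ ≤ 1 := by
    intro y hy
    have h2 := norm_inner_le_norm (𝕜 := ℂ) y v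
    have h3 : ‖y‖ < 1 := mem_ball_zero_iff.mp hy
    nlinarith [norm_nonneg y, norm_nonneg v]
  have hμ' : ∀ y ∈ ball (0 : En n) 1, ‖μ y‖ ≤ C * dd x y ^ (m + 1) := by
    intro y hy
    have hd := dd_pos hx (mem_ball_zero_iff.mp hy)
    refine (hb y hy).trans ?_
    rw [Real.rpow_add hd, Real.rpow_one, mul_assoc]
    have h2 := depth_le_dd (w := y) hx
    have h3 : 0 ≤ dd x y ^ m := Real.rpow_nonneg hd.le _
    apply mul_le_mul_of_nonneg_left _ hC
    nlinarith
  have hf : ∀ i, ∀ y ∈ ball (0 : En n) 1, ‖f i y‖ ≤ C * dd x y ^ (-((n : ℝ) + i - m)) := by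
    intro i y hy
    have hd := dd_pos hx (mem_ball_zero_iff.mp hy)
    simp only [f]
    rw [norm_mul, norm_mul, norm_inv, norm_pow, norm_pow]
    change ‖μ y‖ * (‖⟪y, v⟫_ℂ‖ ^ i * (dd x y ^ (n + 1 + i))⁻¹) ≤ _
    rw [pow_inv_eq hd]
    have e : dd x y ^ (-((n : ℝ) + i - m)) =
        dd x y ^ (m + 1) * (1 * dd x y ^ (-((n + 1 + i : ℕ) : ℝ))) := by
      rw [one_mul, ← Real.rpow_add hd]; congr 1; push_cast; ring
    rw [e, ← mul_assoc C]
    have h2 : ‖⟪y, v⟫_ℂ‖ ^ i ≤ 1 := pow_le_one₀ (norm_nonneg _) (hbv y hy)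
    have h3 := hμ' y hy
    gcongr
  have hlt3 : ∀ z : En n, ‖z‖ ≤ 1 → ∀ y ∈ ball (0 : En n) 1, dd z y < 3 := by
    intro z hz y hy
    have := dd_le_two hz (mem_ball_zero_iff.mp hy).le
    linarith
  have hfi : ∀ i ∈ Finset.range M, Integrable (f i) (volume.restrict (ball (0 : En n) 1)) := by
    intro i hiM
    refine Integrable.mono' ((hi i (Finset.mem_range.mp hiM) x hx 3 (by norm_num)).1.const_mul C)
      (hμ.mul (Measurable.aestronglyMeasurable (by fun_prop))) ?_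
    refine (ae_restrict_iff' measurableSet_ball).mpr (Eventually.of_forall (fun y hy => ?_))
    rw [pw_of_lt _ (hlt3 x hx y hy)]
    exact hf i y hy
  refine ⟨fun i => ((i + n).choose n : ℂ) * ∫ y in ball (0 : En n) 1, f i y, fun τ hτ hz => ?_⟩
  set z := x + τ • v with hzdef
  set T := ‖τ‖ with hT
  have hT0 : 0 ≤ T := norm_nonneg _
  have hker : ∀ y ∈ ball (0 : En n) 1, ∀ R : ℝ, dd x y ≤ R →
      ‖μ y * ker z y‖ ≤ C * R ^ m * dd z y ^ (-(n : ℝ)) := by
    intro y hy R hR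
    have hd := dd_pos hz (mem_ball_zero_iff.mp hy)
    rw [norm_mul, ker, norm_inv, norm_pow]
    change ‖μ y‖ * (dd z y ^ (n + 1))⁻¹ ≤ _
    rw [pow_inv_eq hd]
    have e : dd z y ^ (-(n : ℝ)) = dd z y * dd z y ^ (-((n + 1 : ℕ) : ℝ)) := by
      conv_rhs => rw [← Real.rpow_one (dd z y)]
      rw [← Real.rpow_mul hd.le, ← Real.rpow_add hd]; congr 1; push_cast; ring
    rw [e, ← mul_assoc]
    apply mul_le_mul_of_nonneg_right _ (Real.rpow_nonneg hd.le _)
    refine (hb y hy).trans ?_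
    have h2 := depth_le_dd (w := y) hz
    have h3 : dd x y ^ m ≤ R ^ m := Real.rpow_le_rpow (dd_nonneg _ _) hR hm
    have h4 : 0 ≤ dd x y ^ m := Real.rpow_nonneg (dd_nonneg _ _) _
    have h5 : 0 ≤ 1 - ‖y‖ := by linarith [mem_ball_zero_iff.mp hy]
    have h6 : 0 ≤ R ^ m := h4.trans h3
    calc C * (1 - ‖y‖) * dd x y ^ m = C * (dd x y ^ m * (1 - ‖y‖)) := by ring
      _ ≤ C * (R ^ m * dd z y) := by gcongr
      _ = _ := by ring
  have hki : Integrable (fun y => μ y * ker z y) (volume.restrict (ball (0 : En n) 1)) := by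
    refine Integrable.mono' ((h1 z hz 3 (by norm_num)).1.const_mul (C * 3 ^ m))
      (hμ.mul (Measurable.aestronglyMeasurable (by unfold ker; fun_prop))) ?_
    refine (ae_restrict_iff' measurableSet_ball).mpr (Eventually.of_forall (fun y hy => ?_))
    rw [pw_of_lt _ (hlt3 z hz y hy)]
    exact hker y hy 3 (hlt3 x hx y hy).le
  have hA : ∀ y : En n, 1 - ⟪y, z⟫_ℂ = (1 - ⟪y, x⟫_ℂ) - τ * ⟪y, v⟫_ℂ := by
    intro y
    rw [hzdef, inner_add_right, inner_smul_right]; ring
  have heq : bT μ z - ∑ i ∈ Finset.range M,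
      (((i + n).choose n : ℂ) * ∫ y in ball (0 : En n) 1, f i y) * τ ^ i =
      ∫ y in ball (0 : En n) 1, (μ y * ker z y -
        ∑ i ∈ Finset.range M, (((i + n).choose n : ℂ) * τ ^ i) * f i y) := by
    rw [integral_sub hki (integrable_finsetSum _ (fun i hi => (hfi i hi).const_mul _)),
      integral_finsetSum _ (fun i hi => (hfi i hi).const_mul _), bT]
    congr 1
    refine Finset.sum_congr rfl (fun i _ => ?_)
    rw [integral_const_mul]; ring
  rw [heq]
  have g0 := h0 x hx 3 (by norm_num)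
  have g1 := h1 z hz (3 * T) (by positivity)
  have g2 := fun i (hiM : i ∈ Finset.range M) => hi i (Finset.mem_range.mp hiM) x hx (2 * T) (by positivity)
  have hG1 := g0.1.const_mul (C * K * T ^ γ)
  have hG2 := g1.1.const_mul (C * (2 * T) ^ m)
  have hG3 := integrable_finsetSum (Finset.range M)
    (fun i hiM => (g2 i hiM).1.const_mul (C * ((i + n).choose n : ℝ) * T ^ i))
  refine (norm_integral_le_of_norm_le ((hG1.add hG2).add hG3) ?_).trans ?_
  · refine (ae_restrict_iff' measurableSet_ball).mpr (Eventually.of_forall (fun y hy => ?_))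
    have hd := dd_pos hx (mem_ball_zero_iff.mp hy)
    simp only [Pi.add_apply]
    have p1 : 0 ≤ C * K * T ^ γ * pw x 3 (n + γ - m) y :=
      mul_nonneg (by positivity) (pw_nonneg _ _ _ _)
    have p2 : 0 ≤ C * (2 * T) ^ m * pw z (3 * T) n y :=
      mul_nonneg (by positivity) (pw_nonneg _ _ _ _)
    have p3 : 0 ≤ ∑ i ∈ Finset.range M,
        C * ((i + n).choose n : ℝ) * T ^ i * pw x (2 * T) (n + i - m) y :=
      Finset.sum_nonneg (fun i _ => mul_nonneg (by positivity) (pw_nonneg _ _ _ _))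
    by_cases hnear : dd x y < 2 * T
    · have hz3 : dd z y < 3 * T := by
        have h2 : dd z y ≤ dd x y + T * ‖⟪y, v⟫_ℂ‖ := by
          unfold dd
          rw [hA, hT, ← norm_mul]
          exact norm_sub_le _ _
        nlinarith [hbv y hy]
      have q1 := hker y hy (2 * T) hnear.le
      rw [← pw_of_lt _ hz3] at q1
      have q2 : ‖∑ i ∈ Finset.range M, (((i + n).choose n : ℂ) * τ ^ i) * f i y‖ ≤
          ∑ i ∈ Finset.range M,
            C * ((i + n).choose n : ℝ) * T ^ i * pw x (2 * T) (n + i - m) y := by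
        refine (norm_sum_le _ _).trans (Finset.sum_le_sum (fun i _ => ?_))
        rw [norm_mul, norm_mul, norm_pow, Complex.norm_natCast, pw_of_lt _ hnear, ← hT]
        have := hf i y hy
        calc ((i + n).choose n : ℝ) * T ^ i * ‖f i y‖ ≤
            ((i + n).choose n : ℝ) * T ^ i * (C * dd x y ^ (-((n : ℝ) + i - m))) := by gcongr
          _ = _ := by ring
      refine (norm_sub_le _ _).trans ?_
      linarith
    · push Not at hnear
      have hA0 : (1 - ⟪y, x⟫_ℂ) ≠ 0 := norm_pos_iff.mp hd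
      set u : ℂ := τ * ⟪y, v⟫_ℂ / (1 - ⟪y, x⟫_ℂ) with hu
      have hun : ‖u‖ ≤ T / dd x y := by
        rw [hu, norm_div, norm_mul, ← hT]
        apply div_le_div_of_nonneg_right _ hd.le
        nlinarith [hbv y hy]
      have hTd : T / dd x y ≤ 1 / 2 := by
        rw [div_le_iff₀ hd]; linarith
      have e1 : μ y * ker z y - ∑ i ∈ Finset.range M, (((i + n).choose n : ℂ) * τ ^ i) * f i y =
          μ y * ((1 - ⟪y, x⟫_ℂ) ^ (n + 1))⁻¹ * (((1 - u) ^ (n + 1))⁻¹ -
            ∑ i ∈ Finset.range M, ((i + n).choose n : ℂ) * u ^ i) := by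
        have e2 : 1 - ⟪y, z⟫_ℂ = (1 - ⟪y, x⟫_ℂ) * (1 - u) := by
          rw [hA, hu]; field_simp
        rw [ker, e2, mul_pow, mul_inv, mul_sub, Finset.mul_sum, mul_assoc]
        congr 1
        refine Finset.sum_congr rfl (fun i _ => ?_)
        simp only [f, hu]
        rw [pow_add, div_pow, mul_pow]
        field_simp
      rw [e1, norm_mul, norm_mul, norm_inv, norm_pow]
      change ‖μ y‖ * (dd x y ^ (n + 1))⁻¹ * _ ≤ _
      have q1 := htail u (hun.trans hTd)
      have q2 : ‖u‖ ^ M ≤ T ^ γ * dd x y ^ (-γ) := by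
        calc ‖u‖ ^ M ≤ (T / dd x y) ^ M := by gcongr
          _ = (T / dd x y) ^ (M : ℝ) := (Real.rpow_natCast _ _).symm
          _ ≤ (T / dd x y) ^ γ :=
            Real.rpow_le_rpow_of_exponent_ge' (by positivity) (by linarith) hγ0.le hγM
          _ = _ := by rw [Real.div_rpow hT0 hd.le, Real.rpow_neg hd.le, div_eq_mul_inv]
      have q3 := hμ' y hy
      have e3 : dd x y ^ (-((n : ℝ) + γ - m)) =
          dd x y ^ (m + 1) * dd x y ^ (-((n + 1 : ℕ) : ℝ)) * dd x y ^ (-γ) := by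
        rw [← Real.rpow_add hd, ← Real.rpow_add hd]; congr 1; push_cast; ring
      have q4 : ‖μ y‖ * (dd x y ^ (n + 1))⁻¹ * ‖((1 - u) ^ (n + 1))⁻¹ -
          ∑ i ∈ Finset.range M, ((i + n).choose n : ℂ) * u ^ i‖ ≤
          C * K * T ^ γ * pw x 3 (n + γ - m) y := by
        rw [pw_of_lt _ (hlt3 x hx y hy), e3, pow_inv_eq hd]
        calc _ ≤ (C * dd x y ^ (m + 1)) * dd x y ^ (-((n + 1 : ℕ) : ℝ)) *
              (K * (T ^ γ * dd x y ^ (-γ))) := by
              have : K * ‖u‖ ^ M ≤ K * (T ^ γ * dd x y ^ (-γ)) := by gcongr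
              have q5 := q1.trans this
              gcongr
          _ = _ := by ring
      linarith
  · rw [integral_add' (hG1.add hG2) hG3, integral_add' hG1 hG2, integral_const_mul, integral_const_mul,
      integral_finsetSum _ (fun i hiM => (g2 i hiM).1.const_mul _)]
    have hs := scale hγ0 hγm hT0 hτ
    rw [← hB] at hs
    have r1 : C * K * T ^ γ * ∫ y in ball (0 : En n) 1, pw x 3 (n + γ - m) y ≤
        K * (C0 * 3 ^ ((n : ℝ) + 1 - (n + γ - m))) * C * T ^ γ := by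
      calc _ ≤ C * K * T ^ γ * (C0 * 3 ^ ((n : ℝ) + 1 - (n + γ - m))) := by
            have := g0.2
            gcongr
        _ = _ := by ring
    have r2 : C * (2 * T) ^ m * ∫ y in ball (0 : En n) 1, pw z (3 * T) n y ≤
        3 / 2 * C1 * B * C * T ^ γ := by
      have e : (2 * T) ^ (m + 1) = (2 * T) ^ m * (2 * T) :=
        Real.rpow_add_one' (by positivity) (by linarith)
      calc _ ≤ C * (2 * T) ^ m * (C1 * (3 * T) ^ ((n : ℝ) + 1 - n)) := by
            have := g1.2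
            gcongr
        _ = 3 / 2 * C1 * C * (2 * T) ^ (m + 1) := by
            rw [add_sub_cancel_left, Real.rpow_one, e]; ring
        _ ≤ 3 / 2 * C1 * C * (B * T ^ γ) := by gcongr
        _ = _ := by ring
    have r3 : ∑ i ∈ Finset.range M, ∫ y in ball (0 : En n) 1,
        C * ((i + n).choose n : ℝ) * T ^ i * pw x (2 * T) (n + i - m) y ≤
        (∑ i ∈ Finset.range M, ((i + n).choose n : ℝ) * Ci i) * B * C * T ^ γ := by
      rw [Finset.sum_mul, Finset.sum_mul, Finset.sum_mul]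
      refine Finset.sum_le_sum (fun i hiM => ?_)
      rw [integral_const_mul]
      have hc := hCi i
      have e : (2 * T) ^ (m + 1) = (2 * T) ^ i * (2 * T) ^ ((n : ℝ) + 1 - (n + i - m)) := by
        rw [← Real.rpow_natCast, ← Real.rpow_add' (by positivity) (by linarith)]
        congr 1; ring
      calc _ ≤ C * ((i + n).choose n : ℝ) * (2 * T) ^ i *
              (Ci i * (2 * T) ^ ((n : ℝ) + 1 - (n + i - m))) := by
            have := (g2 i hiM).2
            have h5 : 0 ≤ ∫ y in ball (0 : En n) 1, pw x (2 * T) (n + i - m) y :=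
              integral_nonneg (pw_nonneg _ _ _)
            gcongr
            linarith
        _ = ((i + n).choose n : ℝ) * Ci i * C * (2 * T) ^ (m + 1) := by rw [e]; ring
        _ ≤ ((i + n).choose n : ℝ) * Ci i * C * (B * T ^ γ) := by gcongr
        _ = _ := by ring
    linarith

end Pool.Agent.H809Z.Ball
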